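import Mathlib
import Pool.Agent.Q43.RP.Blk

/-!
# The codimension in which exotic Tate classes begin, in terms of the angle rank

Let `B i` be finitely many simple abelian varieties over finite fields; `B i` is given by a Weil number
`π i` in a CM field `K i` (all complex absolute values of `π i` are `√(q i)`). Let `[K i : ℚ] ≥ 2 g` for
all `i`. Call two complex embeddings of the fields `K i` conjugate if they differ by complex
conjugation. The products `φ (π i) φ' (π i) = q i`, for conjugate `φ`, `φ'`, are the trivial relations
between the Frobenius eigenvalues `φ (π i)`. The group of all multiplicative relations, up to roots of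
unity, modulo the trivial ones is (up to finite index) the lattice of the functions `a` with integral
values on the set of all embeddings, changing their sign under complex conjugation, such that the
product of the `φ (π i) ^ a (φ)` is a root of unity (`relations`). Its rank is the defect
`D = defect K π`: it is the difference of the sum of the dimensions of the `B i` and their angle rank
(the rank of the group generated by the numbers `φ (π i) ^ 2 / q i`).

1. **The defect bound.** If `k D < g` and `k ≥ 2` then for all vector spaces `V i` over an algebraically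
   closed field of characteristic zero on which the Frobenius `F i` acts semisimply with eigenvalues
   conjugate to `π i` (with any multiplicity), all Tate classes in the tensor products of at most `k` of
   the spaces `V i`, over all finite extensions (`F ^ s` in place of `F`), are linear combinations of
   products of Tate classes in two variables over the ground field. With `V i` the first `l`-adic
   cohomology groups and `k = 2 j` this says that the Tate classes of codimension `j < g / (2 D)` on all
   products of powers of the `B i` are generated by those of codimension one, which are classes of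
   divisors by the theorem of Tate. So the Tate conjecture is true for them in codimension `j`. For
   `D = 0` these are all codimensions (this is known); there is no condition on the Newton polygons,
   on the Galois groups of the fields `K i` or on their number.
2. **Rigidity.** Let `B` be given by `π ∈ K`, `[K : ℚ] = 2 g`, with defect at most `D`, and let
   `2 m D = g`, `m ≥ 2`. The following are equivalent: there is an exotic Tate class (one which is not a
   linear combination of products of Tate classes of codimension one, over any finite extension) of
   codimension `m` on a power of `B`; there is one on `B` itself; `K` has a subfield `F` of degree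
   `2 D` which is not totally real such that `N_{K/F} (π) / q ^ m` is a root of unity, that is, `B` is of
   Weil type relative to `F` (the exotic class is then a Weil class).

For `D = 1` and one simple abelian variety the relation is given by an imaginary quadratic field; that
case is known (Dupuy, Kedlaya, Zureick-Brown). The starting result `WeilClassesGenerate` of this
problem needs strong conditions on the Galois group of `K` (transitivity on pairs of embeddings).

The proof is an uncertainty principle: the relations span a space of functions on the set of the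
embeddings, of dimension `D` and invariant under the Galois group, so the value of a function in this
space at a point is at most `D / (2 g)` times its norm of order one; the values of a relation are
integers, and the norm of the relation given by an eigenvector of Tate type in `k` variables is at most
`2 k`. In the case of equality the evaluations at two points are equal, opposite or orthogonal as
elements of the dual space; this gives a system of blocks, that is, a subfield.
-/

set_option autoImplicit false

namespace Pool.Agent.Results.MP_ee618e_ag.ExoticThreshold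

open NumberField Module Pool.Agent.H485R3 Pool.Agent.Q43.RP

/-- The relations between the Frobenius eigenvalues modulo the trivial ones: functions `a` on the set
of the complex embeddings of the fields `K i` that change their sign under complex conjugation, such
that the product of the `φ (π i) ^ a (φ)` is a root of unity. -/
def relations {I : Type} [Fintype I] (K : I → Type) [∀ i, Field (K i)] [∀ i, NumberField (K i)]
    (π : ∀ i, K i) : Set ((Σ i, (K i →+* ℂ)) → ℤ) :=
  {a | (∀ y, a ⟨y.1, ComplexEmbedding.conjugate y.2⟩ = - a y) ∧
    ∃ s : ℕ, 0 < s ∧ (∏ y, y.2 (π y.1) ^ a y) ^ s = 1}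

/-- The defect: the rank of the lattice of the relations. -/
noncomputable def defect {I : Type} [Fintype I] (K : I → Type) [∀ i, Field (K i)]
    [∀ i, NumberField (K i)] (π : ∀ i, K i) : ℕ :=
  finrank ℤ (Submodule.span ℤ (relations K π))

/-- The Tate classes in at most `k` variables are generated by divisors: for all vector spaces `V i`
over an algebraically closed field of characteristic zero with semisimple endomorphisms `F i` whose
eigenvalues are conjugates of `π i`, every multilinear form in at most `k` variables `v l ∈ V (t l)`
which some power `F ^ s` multiplies by `c ^ s`, where `c ^ 2` is the product of the `q (t l)`, is a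
linear combination of products of pairings `B` with `B (F x, F y) = q i * B (x, y)`. -/
def DivisorialUpTo {I : Type} (K : I → Type) [∀ i, Field (K i)] (q : I → ℚ) (π : ∀ i, K i)
    (k : ℕ) : Prop :=
  ∀ (Ω : Type) [Field Ω] [IsAlgClosed Ω] [CharZero Ω] (V : I → Type) [∀ i, AddCommGroup (V i)]
    [∀ i, Module Ω (V i)] [∀ i, FiniteDimensional Ω (V i)] (F : ∀ i, V i →ₗ[Ω] V i),
    (∀ i, Submodule.span Ω {v : V i | ∃ σ : K i →+* Ω, F i v = σ (π i) • v} = ⊤) →
    ∀ (n : ℕ) (t : Fin n → I) (s : ℕ) (c : Ω), n ≤ k → 0 < s → c ^ 2 = ∏ l, (q (t l) : Ω) →
      ∀ φ : MultilinearMap Ω (fun l => V (t l)) Ω,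
        (∀ v : ∀ l, V (t l), φ (fun l => (F (t l) ^ s) (v l)) = c ^ s * φ v) →
        φ ∈ Submodule.span Ω {ψ | IsProductOfPairings V F (fun i => (q i : Ω)) t ψ}

/-- A multilinear form in `2 m` variables on a vector space with a Frobenius endomorphism `F` is an
exotic Tate class: some `F ^ s` multiplies it by `q ^ (m s)`, and for no `s'` it is a linear combination
of products of pairings `B` with `B (F ^ s' x, F ^ s' y) = q ^ s' * B (x, y)`. -/
def IsExotic {Ω : Type} [Field Ω] {V : Type} [AddCommGroup V] [Module Ω V] (F : V →ₗ[Ω] V) (q : ℚ)
    (m : ℕ) (φ : MultilinearMap Ω (fun _ : Fin (2 * m) => V) Ω) : Prop :=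
  (∃ s : ℕ, 0 < s ∧ ∀ v : Fin (2 * m) → V,
    φ (fun l => (F ^ s) (v l)) = ((q : Ω) ^ m) ^ s * φ v) ∧
  ∀ s' : ℕ, 0 < s' → φ ∉ Submodule.span Ω {ψ | IsProductOfPairings (fun _ : Unit => V)
    (fun _ => F ^ s') (fun _ => (q : Ω) ^ s') (fun _ : Fin (2 * m) => ()) ψ}

/-- There is an exotic Tate class of codimension `m` on a power of the abelian variety: on some space
on which the Frobenius endomorphism is semisimple with eigenvalues conjugate to `π`. -/
def ExoticOnPower {K : Type} [Field K] (q : ℚ) (π : K) (m : ℕ) (Ω : Type) [Field Ω] : Prop :=
  ∃ (V : Type) (_ : AddCommGroup V) (_ : Module Ω V) (_ : FiniteDimensional Ω V) (F : V →ₗ[Ω] V)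
    (φ : MultilinearMap Ω (fun _ : Fin (2 * m) => V) Ω),
    Submodule.span Ω {v : V | ∃ σ : K →+* Ω, F v = σ π • v} = ⊤ ∧ IsExotic F q m φ

/-- There is an exotic Tate class of codimension `m` on the abelian variety itself. -/
def Exotic {K : Type} [Field K] (q : ℚ) (π : K) (m : ℕ) (Ω : Type) [Field Ω] : Prop :=
  ∃ f : ((K →+* Ω) → Ω) [⋀^Fin (2 * m)]→ₗ[Ω] Ω, IsExotic (frob π Ω) q m f.toMultilinearMap

/-- `π` is of Weil type relative to a subfield `F` of degree `2 D` which is not totally real:
`N_{K/F} (π) / q ^ m` is a root of unity. -/
def WeilType {K : Type} [Field K] [NumberField K] [IsCMField K] (q : ℚ) (π : K) (D m : ℕ) : Prop :=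
  ∃ F : IntermediateField ℚ K, finrank ℚ F = 2 * D ∧ (∃ x ∈ F, IsCMField.complexConj K x ≠ x) ∧
    ∃ s : ℕ, 0 < s ∧ Algebra.norm F π ^ s = (q : F) ^ (m * s)

/-- **Exotic Tate classes begin in codimension at least `g / (2 D)`**, with equality exactly for Weil
type relative to a subfield of degree `2 D`. -/
theorem result :
    (∀ {I : Type} [Fintype I] (K : I → Type) [∀ i, Field (K i)] [∀ i, NumberField (K i)]
      [∀ i, IsCMField (K i)] (q : I → ℚ) (π : ∀ i, K i), (∀ i, 0 < q i) →
      (∀ i, ∀ φ : K i →+* ℂ, ‖φ (π i)‖ ^ 2 = (q i : ℝ)) →
      ∀ g k : ℕ, (∀ i, 2 * g ≤ finrank ℚ (K i)) → 2 ≤ k → k * defect K π < g →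
        DivisorialUpTo K q π k) ∧
    ∀ (K : Type) [Field K] [NumberField K] [IsCMField K] (q : ℚ) (π : K), 0 < q →
      (∀ φ : K →+* ℂ, ‖φ π‖ ^ 2 = (q : ℝ)) →
      ∀ g D m : ℕ, finrank ℚ K = 2 * g → defect (fun _ : Unit => K) (fun _ => π) ≤ D → 2 ≤ m →
        2 * m * D = g → ∀ (Ω : Type) [Field Ω] [IsAlgClosed Ω] [CharZero Ω],
          List.TFAE [ExoticOnPower q π m Ω, Exotic q π m Ω, WeilType q π D m] := by
  refine ⟨?_, ?_⟩
  · intro I _ K _ _ _ q π hq hweil g k hg hk2 hk Ω _ _ _ V _ _ _ F hF n t s c hn hs hc φ hφ
    exact Pool.Agent.Q43.RP.form_mem_defect K hg q hq π hweil hk2 hk V F hF hn t s hs c hc φ hφ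
  · intro K _ _ _ q π hq hweil g D m hK hD hm hmD Ω _ _ _
    have hg : 0 < g := by
      have h1 := Module.finrank_pos (R := ℚ) (M := K)
      omega
    have hD0 : 0 < D := Nat.pos_of_ne_zero (by
      rintro rfl
      omega)
    have h2 : 2 * finrank ℤ (Pool.Agent.Q43.RP.relLat (fun _ : Unit => K) (fun _ => π)) < g := by
      have h3 : finrank ℤ (Pool.Agent.Q43.RP.relLat (fun _ : Unit => K) (fun _ => π)) ≤ D := hD
      nlinarith
    have hgen := fun (s : ℕ) (hs : 0 < s) =>
      Pool.Agent.Q43.RP.gen_pow (fun _ : Unit => K) (fun _ => hK.ge) (fun _ => q) (fun _ => hq)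
        (fun _ => π) (fun _ => hweil) h2 () s hs
    have hgen1 : IntermediateField.adjoin ℚ {π} = ⊤ := by
      have h4 := hgen 1 one_pos
      rwa [pow_one] at h4
    tfae_have 1 → 3 := by
      rintro ⟨V, _, _, _, F, φ, hF, ⟨s, hs, hφ⟩, hn⟩
      refine Pool.Agent.Q43.RP.weil_of_exotic K hq π hweil hK hD hmD hgen1 V F hF s hs φ hφ ?_
      have h5 := hn 1 one_pos
      rwa [pow_one, pow_one] at h5
    tfae_have 3 → 2 := by
      rintro ⟨F, hF, hx, hN⟩
      have hFK : finrank F K = 2 * m := by
        have h4 := Module.finrank_mul_finrank ℚ F K
        rw [hF, hK, ← hmD] at h4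
        have h5 : (2 * D) * finrank F K = (2 * D) * (2 * m) := by
          rw [h4]
          ring
        exact Nat.eq_of_mul_eq_mul_left (by omega) h5
      obtain ⟨s, hs, f, hf, hn⟩ := Pool.Agent.Q43.RP.exotic_of_weil K hq π hweil hgen
        (by omega) F hFK hx hN Ω
      exact ⟨f, ⟨s, hs, hf⟩, hn⟩
    tfae_have 2 → 1 := by
      rintro ⟨f, hf⟩
      exact ⟨(K →+* Ω) → Ω, inferInstance, inferInstance, inferInstance, frob π Ω,
        f.toMultilinearMap, Pool.Agent.Q43.RP.span_frob K π Ω, hf⟩
    tfae_finish

end Pool.Agent.Results.MP_ee618e_ag.ExoticThreshold
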