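import Pool.Agent.Q59.RL.Tate2

/-!
# The proportion of the algebraic classes among the Tate classes on abelian varieties of Fermat type
over finite fields

Let `p` be a prime and `m` prime to `p`. An abelian variety of Fermat type `B` over an algebraic closure
of the field with `p` elements is a variety isogenous to a factor of a power of the Jacobian of the
Fermat curve of degree `m`. Its cohomology is a sum of lines indexed by the pairs `(S, S')` of sets of
lines of one half of `H^1(B)`, and each line corresponds to the union of the triples of residues modulo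
`m` in `S` and of the negatives of the triples in `S'`, a line of the cohomology of a Fermat
hypersurface (Shioda, Katsura).

Let `A M` be the family of the characters of degree `M` whose line is spanned by classes of algebraic
cycles, for `M` prime to `p`. The families `A M` have the properties of `Admissible` below: their
members are Tate characters (`IsTate`), they are stable under duality, contain the pairs `{a, -a}`, the
Tate characters of surfaces (Tate) and the standard characters, are closed under union and removal of
a pair (Shioda, Katsura, Aoki), and a character of degree `M` whose multiple by `N` is the character of an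
algebraic class in degree `N * M` is the character of an algebraic class.

The theorem: for every `m ≥ 2` prime to `p` and every finite family `L` of multisets (the letters) there
is a number `s` such that
* among the pairs of words of any length `N` in the letters `L i`, the number of those of Tate type is
  at most `2 ^ s` times the number of those in `A m`;
* the proportion of those in `A m` among those of Tate type tends to `1 / 2 ^ s` for `N → ∞`;
* `s = 0` if and only if all pairs of words of Tate type lie in `A m`.
Moreover `s + 1` is at most the number of classes of nonzero residues modulo `m` under the relation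
generated by the links; this number is at most `2 ^ r`, where `r` is the number of odd primes dividing
`m`; and if the order of `p` modulo `m` is odd, then `s` is at most `2 ^ (r' - 1) - 1`, where `r'` is
the number of odd primes dividing `m`, plus one if `4` divides `m`.

For `N = 1` and the letters `L S` = union of the triples in `S`, `S` running through the subsets of the
set of the lines of one half of `H^1(B)`, the pairs of words are the lines of the cohomology of `B`. In
particular, whatever the characteristic and the dimension of `B`, at least the part `2 ^ (1 - 2 ^ r)` of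
all Tate classes on `B` is algebraic.
-/

namespace Pool.Agent.Results.MP_ee618e_ag.FermatTypeDyadicLaw

open Filter Topology Pool.Agent.H916T

/-- The closure properties of the families of the characters of algebraic classes. -/
structure Admissible (p : ℕ) (A : ∀ M : ℕ, Multiset (ZMod M) → Prop) : Prop where
  /-- members are Tate characters -/
  tate : ∀ M, 0 < M → p.Coprime M → ∀ s, A M s → IsTate p M s
  /-- duality -/
  neg : ∀ M, 0 < M → p.Coprime M → ∀ s, A M s → A M (s.map fun a => -a)
  /-- pairs -/
  pair : ∀ M, 0 < M → p.Coprime M → ∀ a : ZMod M, a ≠ 0 → A M {a, -a}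
  /-- surfaces -/
  surface : ∀ M, 0 < M → p.Coprime M → ∀ s, SurfaceTate p M s → A M s
  /-- standard characters -/
  standard : ∀ M, 0 < M → p.Coprime M → ∀ q : ℕ, q.Prime → q ∣ M → ∀ s, Standard q M s → A M s
  /-- closed under union -/
  join : ∀ M, 0 < M → p.Coprime M → ∀ s t, A M s → A M t → A M (s + t)
  /-- closed under removal of a pair -/
  cancel : ∀ M, 0 < M → p.Coprime M → ∀ a s, A M (a ::ₘ -a ::ₘ s) → A M s
  /-- descent of the degree -/
  descend : ∀ M N, 0 < M → 0 < N → p.Coprime M → p.Coprime N → ∀ s : Multiset (ZMod M),
    A (N * M) (s.map fun a => ((N * a.val : ℕ) : ZMod (N * M))) → A M s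

/-- Linked residues: two nonzero residues `a`, `b` modulo `m` such that the (additive) orders of `a`
and `b` have the same prime divisors, or both orders are even, or, for every unit `t` modulo `m`,
the representatives in `{1, ..., m - 1}` of the residues `p ^ j * t * a`, `0 ≤ j < f`, `f` being the
order of `p` modulo `m`, have the same sum as those of the residues `p ^ j * t * b`. -/
def Linked (p m : ℕ) (a b : ZMod m) : Prop :=
  a ≠ 0 ∧ b ≠ 0 ∧
    ((addOrderOf a).primeFactors = (addOrderOf b).primeFactors ∨
      (Even (addOrderOf a) ∧ Even (addOrderOf b)) ∨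
      ∀ t : (ZMod m)ˣ,
        ∑ j ∈ Finset.range (orderOf (p : ZMod m)), ((p : ZMod m) ^ j * ((t : ZMod m) * a)).val =
          ∑ j ∈ Finset.range (orderOf (p : ZMod m)), ((p : ZMod m) ^ j * ((t : ZMod m) * b)).val)

/-- The number of classes of nonzero residues modulo `m` under the equivalence relation generated by
the links. -/
noncomputable def classes (p m : ℕ) : ℕ :=
  Nat.card {c : Quot (Linked p m) // c ≠ Quot.mk _ 0}

/-- The number of odd primes dividing `m`. -/
def oddPrimes (m : ℕ) : ℕ := (m.primeFactors.filter fun q => q ≠ 2).card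

/-- The number of odd primes dividing `m`, plus one if `4` divides `m`. -/
def rank (m : ℕ) : ℕ := (m.primeFactors.filter fun q => q ≠ 2 ∨ 4 ∣ m).card

/-- The union of the letters of the first word and of the negatives of the letters of the second. -/
def union {m : ℕ} {ι : Type} (L : ι → Multiset (ZMod m)) {N : ℕ}
    (w : (Fin N → ι) × (Fin N → ι)) : Multiset (ZMod m) :=
  ∑ i, L (w.1 i) + (∑ i, L (w.2 i)).map fun a => -a

/-- The pairs of words of length `N` whose union has the property `P`. -/
def Words {m : ℕ} {ι : Type} (L : ι → Multiset (ZMod m)) (N : ℕ)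
    (P : Multiset (ZMod m) → Prop) : Type :=
  {w : (Fin N → ι) × (Fin N → ι) // P (union L w)}

lemma W_val {p m : ℕ} [NeZero m] (hpm : p.Coprime m) {a : ZMod m} (ha : a ≠ 0) (t : (ZMod m)ˣ) :
    W p ((t : ZMod m) * a) =
      2 * ((∑ j ∈ Finset.range (orderOf (p : ZMod m)),
        ((p : ZMod m) ^ j * ((t : ZMod m) * a)).val : ℕ) : ℤ) - orderOf (p : ZMod m) * m := by
  unfold W
  have hu := isUnit_p hpm
  have h1 : ∀ j ∈ Finset.range (orderOf (p : ZMod m)),
      Pool.Agent.H916R2.saw ((p : ZMod m) ^ j * ((t : ZMod m) * a)) =
        2 * ((((p : ZMod m) ^ j * ((t : ZMod m) * a)).val : ℕ) : ℤ) - m := by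
    intro j _
    apply Pool.Agent.H916R2.saw_of_ne_zero
    intro h
    have h2 := ((hu.pow j).mul_right_eq_zero).mp h
    exact ha ((t.isUnit.mul_right_eq_zero).mp h2)
  rw [Finset.sum_congr rfl h1, Finset.sum_sub_distrib, ← Finset.mul_sum]
  push_cast
  simp

lemma linked_iff {p m : ℕ} [NeZero m] (hpm : p.Coprime m) (a b : ZMod m) :
    Pool.Agent.H916Z.Link p a b ↔ Linked p m a b := by
  unfold Pool.Agent.H916Z.Link Linked
  constructor
  · rintro ⟨ha, hb, h | ⟨h1, h2⟩ | h⟩
    · exact ⟨ha, hb, Or.inl h⟩
    · exact ⟨ha, hb, Or.inr (Or.inl ⟨even_iff_two_dvd.mpr h1, even_iff_two_dvd.mpr h2⟩)⟩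
    · refine ⟨ha, hb, Or.inr (Or.inr fun t => ?_)⟩
      have h1 := h t
      rw [W_val hpm ha, W_val hpm hb] at h1
      have h2 : ((∑ j ∈ Finset.range (orderOf (p : ZMod m)),
          ((p : ZMod m) ^ j * ((t : ZMod m) * a)).val : ℕ) : ℤ) =
        ((∑ j ∈ Finset.range (orderOf (p : ZMod m)),
          ((p : ZMod m) ^ j * ((t : ZMod m) * b)).val : ℕ) : ℤ) := by linarith
      exact_mod_cast h2
  · rintro ⟨ha, hb, h | ⟨h1, h2⟩ | h⟩
    · exact ⟨ha, hb, Or.inl h⟩
    · exact ⟨ha, hb, Or.inr (Or.inl ⟨even_iff_two_dvd.mp h1, even_iff_two_dvd.mp h2⟩)⟩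
    · refine ⟨ha, hb, Or.inr (Or.inr fun t => ?_)⟩
      rw [W_val hpm ha, W_val hpm hb, h t]

/-- The dyadic law for Tate classes. -/
theorem result (p : ℕ) (hp : p.Prime) (A : ∀ M : ℕ, Multiset (ZMod M) → Prop)
    (hA : Admissible p A) (m : ℕ) (hm : 2 ≤ m) (hpm : p.Coprime m)
    (ι : Type) [Finite ι] [Nonempty ι] (L : ι → Multiset (ZMod m))
    (hL : ∀ i, (0 : ZMod m) ∉ L i) :
    classes p m ≤ 2 ^ oddPrimes m ∧
    ∃ s : ℕ, s + 1 ≤ classes p m ∧
      (Odd (orderOf (p : ZMod m)) → s ≤ 2 ^ (rank m - 1) - 1) ∧
      (∀ N : ℕ, Nat.card (Words L N (IsTate p m)) ≤ 2 ^ s * Nat.card (Words L N (A m))) ∧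
      Tendsto (fun N : ℕ => (Nat.card (Words L N (A m)) : ℝ) / Nat.card (Words L N (IsTate p m)))
        atTop (𝓝 (1 / 2 ^ s)) ∧
      (s = 0 ↔ ∀ (N : ℕ) (w : (Fin N → ι) × (Fin N → ι)), IsTate p m (union L w) →
        A m (union L w)) := by
  have : NeZero m := ⟨by omega⟩
  have := Fintype.ofFinite ι
  have hE : Linked p m = Pool.Agent.H916Z.Link p := by
    funext a b
    exact propext (linked_iff hpm a b).symm
  have h1 : classes p m = Nat.card (Pool.Agent.Q59.RL.Cls' p m) := by
    unfold classes
    rw [hE]
  rw [h1]
  exact ⟨Pool.Agent.Q59.RL.card_Cls' hm, Pool.Agent.Q59.RL.dyadic_tate (A := A)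
    ⟨hA.tate, hA.neg, hA.pair, hA.surface, hA.standard, hA.join, hA.cancel, hA.descend⟩
    hp hpm hm L hL⟩

end Pool.Agent.Results.MP_ee618e_ag.FermatTypeDyadicLaw
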