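import Pool.Agent.Q59.FS.Tate

/-!
# Tate classes of small codimension on abelian varieties of Fermat type over finite fields

Let `m` be prime to the prime `p` and let the order `f` of `p` modulo `m` be odd. Let `B` be an abelian
variety over an algebraic closure of the field with `p` elements which is isogenous to a factor of a
product of any number of copies of the Jacobian of the Fermat curve of degree `m`. Its first
cohomology group is a sum of lines indexed by triples `{a, b, c}` of nonzero residues modulo `m` of sum
zero, and the Tate classes of codimension `k` on `B` are spanned by lines indexed by unions `s` of `2 k`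
triples that are Tate characters (`IsTate`) with `6 k` entries. Such a line is algebraic if the line of
the character `s` in the cohomology of the Fermat variety of dimension `6 k - 2` is algebraic, since
the Fermat varieties are dominated by products of Fermat curves, and conversely. The lines of the
characters with four entries (surfaces) and of the standard characters of Aoki are algebraic, and
union, removal of a pair `{a, -a}` and passing from the degree `N * m` to the degree `m` preserve
algebraicity (Shioda, Katsura, Aoki).

For a prime `ℓ` let `size ℓ = ℓ - 1` if `ℓ` is odd, and `size 2 = 2`. The theorem: if for any two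
different primes `ℓ`, `r` one has `4 * f * weight ℓ r s < size ℓ * size r`, where `weight ℓ r s` is
the number of entries of `s` whose order is divisible by `ℓ * r` (by `4 * r` if `ℓ = 2`), entries of
order `2` modulo `4` counted twice, then the Tate character `s` becomes, after raising the degree to
a suitable multiple prime to `p`, a member of the closure of the characters of surfaces and of the
standard characters.

In particular, if `m` and the order `f` of `p` modulo `m` are odd and `(ℓ - 1) (r - 1) > 24 f k` for
any two different primes `ℓ`, `r` dividing `m`, then all Tate classes of codimension at most `k` on all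
abelian varieties of Fermat type of degree `m`, of arbitrary dimension, are algebraic. These abelian
varieties are not supersingular, the number of the simple factors is not bounded, and in general not
all these Tate classes are generated by divisors (the standard characters give exceptional classes).
-/

namespace Pool.Agent.Results.MP_ee618e_ag.FermatTypeSmallCodimension

open Pool.Agent.H916T

/-- `4` for the prime `2`, and `ℓ` for an odd prime `ℓ`. -/
def level (ℓ : ℕ) : ℕ := if ℓ = 2 then 4 else ℓ

/-- `2` for the prime `2`, and `ℓ - 1` for an odd prime `ℓ`. -/
def size (ℓ : ℕ) : ℕ := if ℓ = 2 then 2 else ℓ - 1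

open scoped Classical in
/-- The number of entries of `s` whose order is divisible by `level ℓ * level r`; entries of order
`2` modulo `4` count twice. -/
noncomputable def weight (ℓ r : ℕ) {m : ℕ} (s : Multiset (ZMod m)) : ℕ :=
  (s.map fun a => if level ℓ * level r ∣ addOrderOf a then
    (if addOrderOf a % 4 = 2 then 2 else 1) else 0).sum

lemma weight_eq (ℓ r : ℕ) {m : ℕ} [NeZero m] (s : Multiset (ZMod m)) :
    ((weight ℓ r s : ℕ) : ℤ) = Pool.Agent.Q59.FS.ww ℓ r s := by
  induction s using Multiset.induction_on with
  | empty => simp [weight, Pool.Agent.Q59.FS.ww]
  | cons a s ih =>
    unfold weight Pool.Agent.Q59.FS.ww at ih ⊢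
    rw [Multiset.map_cons, Multiset.sum_cons, Multiset.map_cons, Multiset.sum_cons, ← ih]
    push_cast
    rfl

/-- Short Tate characters are generated by surfaces and standard characters. -/
theorem result (p m : ℕ) (hp : p.Prime) (hm : 0 < m) (hpm : p.Coprime m)
    (hf : Odd (orderOf (p : ZMod m)))
    (s : Multiset (ZMod m)) (hs : IsTate p m s) (hne : s ≠ 0)
    (hshort : ∀ ℓ r : ℕ, ℓ.Prime → r.Prime → ℓ ≠ r →
      4 * (orderOf (p : ZMod m) * weight ℓ r s) < size ℓ * size r) :
    ∃ N : ℕ, 0 < N ∧ p.Coprime N ∧
      Generated (N * m)
        (fun t => SurfaceTate p (N * m) t ∨ ∃ q : ℕ, q.Prime ∧ q ∣ N * m ∧ Standard q (N * m) t)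
        (s.map fun a => ((N * a.val : ℕ) : ZMod (N * m))) := by
  have : NeZero m := ⟨hm.ne'⟩
  obtain ⟨N, hN, hpN, H⟩ := Pool.Agent.Q59.FS.tate_short hp hpm hf hs hne
    (fun ℓ r hℓ hr hne => by
      have h1 := hshort ℓ r hℓ hr hne
      rw [← weight_eq]
      exact_mod_cast h1)
  exact ⟨N, hN, hpN, H (N * m) rfl⟩

end Pool.Agent.Results.MP_ee618e_ag.FermatTypeSmallCodimension
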