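import Mathlib
import Pool.Agent.Q219.NS.Main
import Pool.Agent.Q219.NS.AbB
import Pool.Agent.Q219.NS.Gen

/-!
# The Tate conjecture for `A × B`, with `A` outside of a thin subset of a Newton stratum

Fix a prime `p`, a nonempty finite set `κ`, dimensions `g i ≥ 1` and, for each `i`, a symmetric
Newton polygon with slopes `s i j` and `1 - s i j` (`j < g i`, increasing in `j`, between `0` and
`1 / 2`, with integral break points: `IsPolygon (s i)`) whose smallest slope is at most `σ < 1 / 2`;
so it is any Newton polygon that is not the supersingular one. `NewtonStratum g s p a` is the set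
of families of isogeny classes of abelian varieties `A_i` of dimension `g i` over the field with
`p ^ a` elements having these Newton polygons: by the theorem of Honda and Tate it consists of
families of characteristic polynomials of Frobenius (`IsFrobPoly`, `WithSlopes`). Fix also a number
field `E` in the complex numbers and a number `r` which is smaller than all the dimensions `g i`.

We prove that the number of elements of `NewtonStratum g s p a` tends to infinity with `a`, and that for
all members, except for at most

  `C * a * p ^ (- a (1 - 2 σ) / 6) * |NewtonStratum g s p a|`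

(`C` depends on `p`, `g`, `s`, `σ`, `E`, `r` only), the following is true.

Let `A` be an abelian variety over a finite extension of the field with `p ^ a` elements, isogenous
to a product of powers of the `A_i` (`V`, `F ^ s` is its first cohomology group and Frobenius,
`⋀ V` its cohomology).

* (`TateTimesAbelian`) Let `B` be any abelian variety over the same field of dimension at most `r`,
  or of any dimension such that the eigenvalues of its Frobenius endomorphism have rank at most `r`
  over `E` (up to powers they lie in a group generated by nonzero elements of `E` and `r` numbers;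
  for instance all supersingular abelian varieties, all products of them with abelian varieties of
  dimension at most `r`, and all abelian varieties whose Frobenius eigenvalues belong to `E`). Then
  each Tate class on `A × B`, in any degree and over any finite extension, is a combination of
  products of divisor classes on `A` and Tate classes on `B`. So the Tate conjecture for `B` implies
  the Tate conjecture for `A × B`; for `dim B ≤ 3` (if `r ≥ 3`) it holds without hypothesis, by the
  theorem of Tate on divisors and duality.
* (`TateSemisimple`) The same holds for all smooth varieties `U` (over the same field) in place of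
  `B`, if the eigenvalues of Frobenius and their conjugates have rank at most `r` over `E` in each
  degree: the Tate conjecture and the semisimplicity at the Tate eigenvalues, over all finite
  extensions, for `U` imply them for `A × U`.
* (`TateGenerated`) For supersingular `B` all Tate classes on `A × B` are generated by divisor
  classes (here for all algebraically closed coefficient fields of characteristic zero).

The smallest slopes of the polygon enter as follows: the members of the stratum correspond to
integral points in a box that is shorter by `p ^ E_k` in the `k`-th direction; the sieve needs a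
box of size at least a fixed power of `p ^ a` in each direction, and the shortest side, for the
trace of the real Frobenius, has length about `p ^ (a (1 / 2 - s i 0))`.
-/

set_option autoImplicit false

namespace Pool.Agent.Results.MP_ee618e_ag.StrataTimesSmallRank

open Polynomial Pool.Agent.W518.DN Pool.Agent.TH44.SS Pool.Agent.Q219.NS

/-- The theorem for the family of isogeny classes over the field with `p ^ a` elements with the
Frobenius polynomials `P i`. -/
def Holds {κ : Type} [Fintype κ] (p : ℕ) [Fact p.Prime] (a : ℕ) (E : IntermediateField ℚ ℂ)
    (r : ℕ) (P : κ → ℤ[X]) : Prop :=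
  TateTimesAbelian E (p ^ a) r P ∧ TateSemisimple E (p ^ a) r P ∧ TateGenerated p a P

theorem stratum_eq {κ : Type} (g : κ → ℕ) (s : ∀ i, Fin (g i) → ℚ) (p : ℕ) [Fact p.Prime]
    (a : ℕ) : NewtonStratum g s p a = Stratum g s p a := rfl

/-- **The Tate conjecture for `A × B` for all `A` outside of a thin subset of a Newton stratum.** -/
theorem result {κ : Type} [Fintype κ] [Nonempty κ] (p : ℕ) [Fact p.Prime]
    -- dimensions and Newton polygons
    (g : κ → ℕ) (s : ∀ i, Fin (g i) → ℚ) (hs : ∀ i, IsPolygon (s i))
    -- the smallest slopes
    (σ : ℚ) (hσ : ∀ i (h : 0 < g i), s i ⟨0, h⟩ ≤ σ) (hσ2 : σ < 1 / 2)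
    -- the number field and the rank
    (E : IntermediateField ℚ ℂ) [FiniteDimensional ℚ E] (r : ℕ) (hr : ∀ i, r < g i) :
    (∀ N : ℕ, ∃ a₀ : ℕ, ∀ a, a₀ ≤ a →
      (NewtonStratum g s p a).Finite ∧ N ≤ (NewtonStratum g s p a).ncard) ∧
    ∃ C : ℝ, 0 < C ∧ ∀ a : ℕ, 0 < a →
      ({P ∈ NewtonStratum g s p a | ¬ Holds p a E r P}.ncard : ℝ) ≤
        C * (a * (p : ℝ) ^ (-((a : ℝ) * (1 - 2 * σ) / 6))) *
          ((NewtonStratum g s p a).ncard : ℝ) := by
  classical
  have hg : ∀ i, 1 ≤ g i := fun i => (Nat.zero_le r).trans_lt (hr i)
  have hs' : ∀ i, IsNewton (s i) := fun i => ⟨(hs i).mono, (hs i).nonneg, (hs i).le_half,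
    (hs i).integral⟩
  simp only [stratum_eq]
  refine ⟨fun N => ?_, ?_⟩
  · obtain ⟨a₀, h⟩ := density g s p hg hs' (fun i => ⟨⟨0, hg i⟩, (hσ i (hg i)).trans_lt hσ2⟩)
      N 1 one_pos
    exact ⟨a₀, fun a ha => ⟨(h a ha).1, (h a ha).2.1⟩⟩
  · obtain ⟨C, hC, h⟩ := count_strata g s p (Pool.Agent.W484.TB.splitPrimes E)
      (Pool.Agent.W484.TB.dense_splitPrimes E) hg hs' σ hσ hσ2
    refine ⟨C, hC, fun a ha => h a ha (Holds p a E r) fun f hm hd hf => ?_⟩
    have hq : p ^ a ≠ 0 := pow_ne_zero _ (Fact.out : p.Prime).ne_zero
    have h1 := tateSemisimple_good E hq r f hm (fun i => by rw [hd i]; exact hr i) hf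
    exact ⟨tateTimesAbelian_of hq h1, h1, tateGenerated_good p a f hm hf⟩

end Pool.Agent.Results.MP_ee618e_ag.StrataTimesSmallRank
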